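import Mathlib
import Pool.Agent.H20.G.R_seed8.TH815.GR11
import Pool.Agent.H20.G.R_pool_sql_team_8f841797.H11.Girth
import Pool.Agent.H20.G.R_pool_sql_team_39128cda.Lib.helper3_.Girth

/-!
# Spanning subgraphs without cycles from an infinite family

A recursively constructed family of cycles for which graphs of small order and large girth are much
denser than spanning subgraphs of suitable regular graphs.
-/

set_option autoImplicit false

namespace Pool.Agent.H20.FF

open SimpleGraph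

/-- Regular graphs of large girth. -/
theorem exists_regular (d g : ℕ) : ∃ (n : ℕ) (G : SimpleGraph (Fin n)), 0 < n ∧
    (∀ v (c : G.Walk v v), c.IsCycle → g < c.length) ∧ ∀ v, (G.neighborSet v).ncard = d := by
  classical
  obtain ⟨q, hdq, hq⟩ := Nat.exists_infinite_primes (d + 1)
  obtain ⟨n, G, hn, hg, he⟩ := Pool.Agent.H11.Girth.exists_dense_girth (2 * g + 1) (2 * q)
  have hg' : ∀ (v : Fin n) (p : G.Walk v v), p.IsCycle → 2 * g < p.length := by
    rw [le_egirth] at hg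
    intro v p hp
    have := hg v p hp
    have h2 : 2 * g + 1 ≤ p.length := by exact_mod_cast this
    omega
  have hE : G.edgeFinset.card = G.edgeSet.ncard := by
    rw [Set.ncard_eq_toFinset_card']
    rfl
  obtain ⟨m, B, hm, -, hB, -, -, hdeg⟩ := Pool.TH815.GR.regular_of_dense G hg' q d hq (by omega) (by
    rw [hE, Fintype.card_fin]
    have h1 : q * n ≤ G.edgeSet.ncard := by
      have : 2 * (q * n) ≤ 2 * G.edgeSet.ncard := by
        rw [← mul_assoc]; exact he
      omega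
    have h2 : (q - 1) * n < q * n := Nat.mul_lt_mul_of_pos_right (by have := hq.pos; omega) hn
    omega)
  let e : Fin (m + m) ≃ Fin m ⊕ Fin m := finSumFinEquiv.symm
  refine ⟨m + m, B.comap e, by omega, ?_, ?_⟩
  · intro v c hc
    have h1 : ((2 * g : ℕ) : ℕ∞) < (B.comap e).egirth := by
      refine lt_of_lt_of_le hB ?_
      exact SimpleGraph.IsContained.egirth_le
        ⟨(SimpleGraph.Embedding.comap e.toEmbedding B).toCopy⟩
    have h2 := (Pool.TH815.GR.egirth_iff (B.comap e) _).1 h1 v c hc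
    omega
  · intro x
    rw [← hdeg (e x), ← Set.ncard_image_of_injective _ e.injective]
    congr 1
    ext z
    simp only [Set.mem_image, SimpleGraph.mem_neighborSet, SimpleGraph.comap_adj]
    constructor
    · rintro ⟨j, hj, rfl⟩
      exact hj
    · intro hz
      refine ⟨e.symm z, ?_, by simp⟩
      simpa using hz

/-- One step of the construction. -/
theorem step (i R : ℕ) : ∃ (D n : ℕ), R < D ∧ 0 < n ∧
    (∃ T : SimpleGraph (Fin D), (∀ v (c : T.Walk v v), c.IsCycle → R < c.length) ∧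
      i * D ≤ T.edgeSet.ncard) ∧
    ∃ G : SimpleGraph (Fin n), (∀ v (c : G.Walk v v), c.IsCycle → D < c.length) ∧
      ∀ v, (G.neighborSet v).ncard = D := by
  obtain ⟨D, hD1, hD2⟩ : ∃ D, 2 * (4 * i + 1) ^ (R + 1) ≤ D ∧ R < D :=
    ⟨2 * (4 * i + 1) ^ (R + 1) + R + 1, by omega, by omega⟩
  obtain ⟨T, hT1, -, hT2⟩ := Pool.Agent.Lib.helper3.Girth.exists_girth_dense R (4 * i) D hD1
  obtain ⟨n, G, hn, hG1, hG2⟩ := exists_regular D D
  refine ⟨D, n, hD2, hn, ⟨T, hT1, ?_⟩, G, hG1, hG2⟩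
  have : 4 * (i * D) ≤ 4 * T.edgeSet.ncard := by rw [← mul_assoc]; exact hT2
  omega

theorem main :
    ¬ (∀ F : Set (Σ k : ℕ, SimpleGraph (Fin k)),
      (∀ p ∈ F, ¬ p.2.IsAcyclic) →
      (∃ p ∈ F, p.2.Colorable 2) →
      ∃ c : ℝ, 0 < c ∧
        ∀ δ Δ : ℕ, 1 ≤ δ → δ ≤ Δ →
          ∀ n : ℕ, ∀ G : SimpleGraph (Fin n),
            (∀ v, δ ≤ (G.neighborSet v).ncard) →
            (∃ v, (G.neighborSet v).ncard = δ) →
            (∀ v, (G.neighborSet v).ncard ≤ Δ) →
            (∃ v, (G.neighborSet v).ncard = Δ) →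
            ∀ T : SimpleGraph (Fin Δ),
              (∀ p ∈ F, ¬ p.2.IsContained T) →
              ∃ H : SimpleGraph (Fin n), H ≤ G ∧
                (∀ p ∈ F, ¬ p.2.IsContained H) ∧
                ∀ v, c * (T.edgeSet.ncard : ℝ) * (δ : ℝ) / (Δ : ℝ) ^ 2
                  ≤ ((H.neighborSet v).ncard : ℝ)) := by
  classical
  intro hall
  choose D n hRD hn hT hG using step
  -- the recursively defined radii
  let R : ℕ → ℕ := fun i => Nat.rec 2 (fun j r => n j r + D j r + 2) i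
  have hR0 : R 0 = 2 := rfl
  have hRs : ∀ i, R (i + 1) = n i (R i) + D i (R i) + 2 := fun i => rfl
  have hDR : ∀ i, D i (R i) < R (i + 1) := fun i => by rw [hRs]; omega
  have hmono : StrictMono R := strictMono_nat_of_lt_succ (fun i => (hRD i (R i)).trans (hDR i))
  have hR2 : ∀ i, 2 ≤ R i := fun i => hR0 ▸ hmono.monotone (Nat.zero_le i)
  let F : Set (Σ k : ℕ, SimpleGraph (Fin k)) :=
    {p | ∃ i ℓ : ℕ, D i (R i) < ℓ ∧ ℓ ≤ R (i + 1) ∧ p = ⟨ℓ, cycleGraph ℓ⟩}
  obtain ⟨c, hc, h⟩ := hall F (by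
    rintro p ⟨i, ℓ, h1, -, rfl⟩ hac
    have h2 := hR2 i
    have h3 := hRD i (R i)
    obtain ⟨v, w, hw, -⟩ := (cycleGraph_isContained_iff (G := cycleGraph ℓ) (n := ℓ) (by omega)).1
      ⟨Copy.id _⟩
    exact hac w hw) (by
    obtain ⟨ℓ, h1, h2, h3⟩ : ∃ ℓ, D 0 (R 0) < ℓ ∧ ℓ ≤ R (0 + 1) ∧ Even ℓ := by
      have := hRs 0
      rcases Nat.even_or_odd (D 0 (R 0)) with h | h
      · exact ⟨D 0 (R 0) + 2, by omega, by omega, h.add (by decide)⟩
      · exact ⟨D 0 (R 0) + 1, by omega, by omega, h.add_one⟩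
    exact ⟨⟨ℓ, cycleGraph ℓ⟩, ⟨0, ℓ, h1, h2, rfl⟩,
      (cycleGraph.bicoloring_of_even ℓ h3).colorable⟩)
  obtain ⟨i, hi⟩ := exists_nat_gt (1 / c)
  set Δ := D i (R i) with hΔ
  have hΔR : R i < Δ := hRD i (R i)
  have hΔ0 : 0 < Δ := by omega
  obtain ⟨T, hT1, hT2⟩ := hT i (R i)
  obtain ⟨G, hG1, hG2⟩ := hG i (R i)
  have hn0 := hn i (R i)
  obtain ⟨H, hHG, hHF, hHd⟩ := h Δ Δ (by omega) le_rfl (n i (R i)) G (fun v => (hG2 v).ge)
    ⟨⟨0, hn0⟩, hG2 _⟩ (fun v => (hG2 v).le) ⟨⟨0, hn0⟩, hG2 _⟩ T (by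
      rintro p ⟨j, ℓ, h1, h2, rfl⟩ hcon
      rcases lt_or_ge j i with hji | hji
      · have h3 : ℓ ≤ R i := h2.trans (hmono.monotone hji)
        have h4 : 2 < ℓ := lt_of_le_of_lt (hR2 j) ((hRD j (R j)).trans h1)
        obtain ⟨v, w, hw, hl⟩ := (cycleGraph_isContained_iff h4).1 hcon
        have := hT1 v w hw
        omega
      · have h3 : Δ < ℓ := by
          rcases hji.eq_or_lt with h | h
          · subst h
            exact h1
          · have h4 : Δ < R (i + 1) := hDR i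
            have h5 : R (i + 1) ≤ R j := hmono.monotone h
            have h6 := hRD j (R j)
            omega
        obtain ⟨f⟩ := hcon
        have h4 := Fintype.card_le_of_injective f f.injective
        rw [Fintype.card_fin, Fintype.card_fin] at h4
        exact absurd h3 (not_lt.2 h4))
  have hac : H.IsAcyclic := by
    intro v w hw
    have h1 : Δ < w.length := by
      have := hG1 v (w.mapLe hHG) (hw.mapLe hHG)
      simpa using this
    have h2 : w.length ≤ n i (R i) := by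
      have := Pool.Agent.Lib.helper3.Girth.cycle_length_le hw
      rwa [Fintype.card_fin] at this
    have h3 : 2 < w.length := by have := hR2 i; omega
    refine hHF ⟨w.length, cycleGraph w.length⟩ ⟨i, w.length, h1, ?_, rfl⟩ ?_
    · rw [hRs]; omega
    · exact (cycleGraph_isContained_iff h3).2 ⟨v, w, hw, rfl⟩
  have : Nonempty (Fin (n i (R i))) := ⟨⟨0, hn0⟩⟩
  obtain ⟨v, hv⟩ := Pool.Agent.Lib.helper3.Girth.exists_deg_le_one hac
  have h1 := hHd v
  have h2 : ((H.neighborSet v).ncard : ℝ) ≤ 1 := by exact_mod_cast hv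
  have h3 : (i : ℝ) * Δ ≤ (T.edgeSet.ncard : ℝ) := by exact_mod_cast hT2
  have hΔ' : (0 : ℝ) < Δ := by exact_mod_cast hΔ0
  have h4 : c * (T.edgeSet.ncard : ℝ) * (Δ : ℝ) / (Δ : ℝ) ^ 2 ≤ 1 := h1.trans h2
  rw [div_le_one (by positivity)] at h4
  have h5 : c * (i * Δ) * Δ ≤ c * (T.edgeSet.ncard : ℝ) * (Δ : ℝ) := by gcongr
  have h6 : 1 < c * i := by
    rw [div_lt_iff₀ hc] at hi
    linarith
  have h7 : (0 : ℝ) < Δ ^ 2 := by positivity
  nlinarith

end Pool.Agent.H20.FF
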